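import Pool.Agent.R246.SK.Defs

/-!
# SK-TT: the quadratic form in Fourier coefficients
-/

set_option autoImplicit false

open scoped ContDiff ComplexConjugate
open Filter MeasureTheory

namespace Pool.Agent.R938.SK

open Pool.Agent.R246.SK

theorem sp_real {a : ℝ → ℝ} (ha : PP a) : SP (fun t => (a t : ℂ)) := by
  refine ⟨Complex.ofRealCLM.contDiff.comp ha.1, fun t => ?_⟩
  simp only [ha.2.1 t]

theorem sp_mul {f g : ℝ → ℂ} (hf : SP f) (hg : SP g) : SP (fun t => f t * g t) := by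
  refine ⟨hf.1.mul hg.1, fun t => ?_⟩
  simp only [hf.2 t, hg.2 t]

theorem ee_zero (n : ℤ) : ee n 0 = 1 := by
  simp [ee]

theorem summable_norm_fc (h1 : S_FT1) {f : ℝ → ℂ} (hf : SP f) :
    Summable (fun n : ℤ => ‖fc f n‖) := by
  have h := ((h1 f hf).2.1 0).summable.norm
  refine h.congr fun n => ?_
  rw [ee_zero, mul_one]

theorem triple (h1 : S_FT1) (h3 : S_FT3) {a f g : ℝ → ℂ} (ha : SP a) (hf : SP f) (hg : SP g) :
    HasSum (fun p : ℤ × ℤ => fc a (p.1 - p.2) * fc f p.2 * conj (fc g p.1))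
      (((1 / (2 * Real.pi) : ℝ) : ℂ) *
        ∫ t in (0 : ℝ)..(2 * Real.pi), a t * f t * conj (g t)) := by
  have hsum : Summable (fun p : ℤ × ℤ => fc a (p.1 - p.2) * fc f p.2 * conj (fc g p.1)) := by
    obtain ⟨C, hC⟩ := (h1 a ha).1 0
    have hprod : Summable (fun p : ℤ × ℤ => ‖fc g p.1‖ * ‖fc f p.2‖) :=
      (summable_norm_fc h1 hg).mul_of_nonneg (summable_norm_fc h1 hf)
        (fun _ => norm_nonneg _) (fun _ => norm_nonneg _)
    refine Summable.of_norm_bounded (hprod.mul_left C) fun p => ?_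
    have hb : ‖fc a (p.1 - p.2)‖ ≤ C := by
      have := hC (p.1 - p.2)
      simpa using this
    rw [norm_mul, norm_mul, RCLike.norm_conj]
    calc ‖fc a (p.1 - p.2)‖ * ‖fc f p.2‖ * ‖fc g p.1‖
        = ‖fc a (p.1 - p.2)‖ * (‖fc g p.1‖ * ‖fc f p.2‖) := by ring
      _ ≤ C * (‖fc g p.1‖ * ‖fc f p.2‖) :=
          mul_le_mul_of_nonneg_right hb (mul_nonneg (norm_nonneg _) (norm_nonneg _))
  have hfib : ∀ m : ℤ, HasSum (fun k : ℤ => fc a (m - k) * fc f k * conj (fc g m))
      (fc (fun t => a t * f t) m * conj (fc g m)) := fun m =>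
    ((h3 a f ha hf).2 m).mul_right _
  have hA := hsum.hasSum.prod_fiberwise (g := fun m : ℤ => fc (fun t => a t * f t) m * conj (fc g m))
    hfib
  have hB := (h3 (fun t => a t * f t) g (sp_mul ha hf) hg).1
  have := hA.unique hB
  rw [← this]
  exact hsum.hasSum

theorem s_tt (h1 : S_FT1) (h3 : S_FT3) (hL : S_LAM) : S_TT := by
  intro a f g ha hf hg
  have hac := sp_real ha
  have hLf := (hL f hf).1
  have hLg := (hL g hg).1
  have hdf := (h1 f hf).2.2.1
  have hdg := (h1 g hg).2.2.1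
  have hA := triple h1 h3 hac hLf hLg
  have hB := triple h1 h3 hac hdf hdg
  have hAB := hA.sub hB
  have hint : ∀ p q : ℝ → ℂ, SP p → SP q → IntervalIntegrable
      (fun t => (a t : ℂ) * p t * conj (q t)) volume 0 (2 * Real.pi) := by
    intro p q hp hq
    refine Continuous.intervalIntegrable ?_ _ _
    exact (hac.1.continuous.mul hp.1.continuous).mul
      (Complex.continuous_conj.comp hq.1.continuous)
  have hval : ((1 / (2 * Real.pi) : ℝ) : ℂ) * TT a f g =
      ((1 / (2 * Real.pi) : ℝ) : ℂ) *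
        (∫ t in (0 : ℝ)..(2 * Real.pi), (a t : ℂ) * Lam f t * conj (Lam g t)) -
      ((1 / (2 * Real.pi) : ℝ) : ℂ) *
        (∫ t in (0 : ℝ)..(2 * Real.pi), (a t : ℂ) * deriv f t * conj (deriv g t)) := by
    rw [← mul_sub, ← intervalIntegral.integral_sub (hint _ _ hLf hLg) (hint _ _ hdf hdg)]
    unfold TT
    congr 1
    refine intervalIntegral.integral_congr fun t _ => ?_
    show (a t : ℂ) * (Lam f t * conj (Lam g t) - deriv f t * conj (deriv g t)) = _
    ring
  rw [hval]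
  have hfun : (fun p : ℤ × ℤ => Kk a p.1 p.2 * fc f p.2 * conj (fc g p.1)) =
      fun p : ℤ × ℤ => fc (fun t => (a t : ℂ)) (p.1 - p.2) * fc (Lam f) p.2 * conj (fc (Lam g) p.1)
        - fc (fun t => (a t : ℂ)) (p.1 - p.2) * fc (deriv f) p.2 * conj (fc (deriv g) p.1) := by
    funext p
    rw [(hL f hf).2.1, (hL g hg).2.1, (h1 f hf).2.2.2, (h1 g hg).2.2.2]
    have e1 : conj (((|p.1| : ℤ) : ℂ) * fc g p.1) = ((|p.1| : ℤ) : ℂ) * conj (fc g p.1) := by
      rw [map_mul, map_intCast]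
    have e2 : conj (Complex.I * (p.1 : ℂ) * fc g p.1) =
        -(Complex.I * (p.1 : ℂ)) * conj (fc g p.1) := by
      rw [map_mul, map_mul, Complex.conj_I, map_intCast]
      ring
    rw [e1, e2]
    unfold Kk ac
    push_cast
    linear_combination (-(fc (fun t => (a t : ℂ)) (p.1 - p.2) * fc f p.2 * conj (fc g p.1)
      * (p.1 : ℂ) * (p.2 : ℂ))) * Complex.I_mul_I
  rw [hfun]
  exact hAB

end Pool.Agent.R938.SK
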